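import Pool.Agent.H11.TH.FinC

/-!
# The bounds for all subvarieties from a bounded degree Lehmer property of one field, with uniform constants

As `H11/TV/Gen`, with the hypothesis for the single field `L` and one bound `C` for the number of conjugates, which
depends only on `N`, `d` (or `n`, `ω₀`).
-/

set_option autoImplicit false
set_option linter.unusedSectionVars false

open NumberField MvPolynomial

namespace Pool.Agent.H11.TV

open Pool.Agent.H72.PB Pool.Agent.H11.TH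

variable {K Ω : Type} [Field K] [NumberField K] [Field Ω] [CharZero Ω] [IsAlgClosed Ω]
  [Algebra K Ω] [IsGalois K Ω]

variable (K) in
theorem uni_sparse (Λ : Subgroup Ωˣ) (N d : ℕ) :
    ∃ C : ℕ, ∀ c₁ : ℝ, 0 < c₁ → ∃ c : ℝ, 0 < c ∧ ∀ L : IntermediateField K Ω,
      (∀ γ : Ωˣ, (∀ m : ℕ, 1 ≤ m → γ ^ m ∉ Λ) → dg L (γ : Ω) ≤ C →
        c₁ ≤ absLogHeight₁ (γ : Ω)) → ∀ (n : ℕ) (Γ : Subgroup (Tor Ω n)),
      (∀ x : Tor Ω n, (∀ l, x l ∈ Λ) → x ∈ Γ) →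
      ∀ V : Set (Tor Ω n), (idl V).IsPrime → Transv K Γ V →
      ∀ (D : ℕ) (m : Fin N → Fin n → ℕ) (g : Fin N → Ω), (∀ j l, m j l ≤ D) →
      (∀ j, dg L (g j) ≤ d) →
      (∑ j, term (m j) (g j)) ≠ 0 → (∑ j, term (m j) (g j)) ∈ idl V →
      ∀ θ : ℝ, idl {x | x ∈ V ∧ ht x ≤ θ} ≤ idl V → c ≤ D * θ := by
  classical
  obtain ⟨ε, Q, C, hε, hQ, hP⟩ := prop_P K Ω N d
  have hQr : (0 : ℝ) < Q := by exact_mod_cast hQ
  refine ⟨C, fun c₁ hc₁ => ⟨min ε (c₁ / Q), lt_min hε (div_pos hc₁ hQr), ?_⟩⟩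
  intro L hL n Γ hΓ1 V hV htr D m g hm hg hp0 hpV θ hθ
  obtain ⟨X, hX⟩ : ∃ X : Set (Tor Ω n), X = {x | x ∈ V ∧ ht x ≤ θ} := ⟨_, rfl⟩
  rw [← hX] at hθ
  have hXV : X ⊆ V := by
    rw [hX]
    exact fun x hx => hx.1
  obtain ⟨x₁, hx₁⟩ : X.Nonempty := by
    by_contra hcon
    rw [Set.not_nonempty_iff_eq_empty] at hcon
    apply hV.ne_top
    rw [eq_top_iff]
    refine le_trans ?_ hθ
    intro p _
    unfold idl
    rw [mem_vanishingIdeal_iff]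
    rintro _ ⟨x, hx, rfl⟩
    rw [hcon] at hx
    exact absurd hx (Set.notMem_empty x)
  have hxθ : ∀ x ∈ X, ht x ≤ θ := by
    rw [hX]
    exact fun x hx => hx.2
  by_contra hcon
  rw [not_le] at hcon
  have h1 : (D : ℝ) * θ ≤ ε := (hcon.trans_le (min_le_left _ _)).le
  -- the terms with nonzero coefficients
  have hsum : pol (fun j : {j : Fin N // g j ≠ 0} => m j.1)
      (fun j : {j : Fin N // g j ≠ 0} => Units.mk0 (g j.1) j.2) = ∑ j, term (m j) (g j) := by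
    unfold pol
    have h2 : ∀ j : Fin N, j ∉ Finset.univ.filter (fun j => g j ≠ 0) →
        term (m j) (g j) = (0 : MvPolynomial (Fin n) Ω) := by
      intro j hj
      have h3 : g j = 0 := by
        by_contra h4
        exact hj (Finset.mem_filter.2 ⟨Finset.mem_univ _, h4⟩)
      unfold term
      rw [h3, map_zero]
    rw [← Finset.sum_subset (Finset.filter_subset (fun j => g j ≠ 0) Finset.univ)
      (fun j _ hj => h2 j hj)]
    exact (Finset.sum_subtype (Finset.univ.filter (fun j => g j ≠ 0))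
      (fun j => by simp) (fun j => (term (m j) (g j) : MvPolynomial (Fin n) Ω))).symm
  obtain ⟨e, γ, he0, heQ, heV, heC⟩ := hP L n V X hV hXV hθ {j : Fin N // g j ≠ 0}
    ((Fintype.card_subtype_le _).trans (by rw [Fintype.card_fin])) (fun j => m j.1) D
    (fun j l => hm j.1 l)
    (fun x hx => (mul_le_mul_of_nonneg_left (hxθ x hx) (Nat.cast_nonneg D)).trans h1)
    (fun j => Units.mk0 (g j.1) j.2) 1 le_rfl (fun j => by
      rw [pow_one]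
      exact hg j.1) (by rw [hsum]; exact hp0) (by rw [hsum]; exact hpV)
  rw [pow_one] at heC
  have hsat := not_sat (K := K) Λ Γ hΓ1 V hV htr e he0 γ heV
  have h2 := hL γ hsat heC
  have h3 : absLogHeight₁ (γ : Ω) ≤ (Q * D : ℝ) * θ := by
    rw [← heV x₁ (hXV hx₁)]
    refine (ht_ch (K := K) e x₁ (Q * D : ℝ) ?_).trans
      (mul_le_mul_of_nonneg_left (hxθ x₁ hx₁) (by positivity))
    intro l
    have h4 := heQ l
    have h5 : ((|e l| : ℤ) : ℝ) ≤ (((Q : ℤ) * (D : ℤ) : ℤ) : ℝ) := by exact_mod_cast h4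
    push_cast at h5
    exact h5
  have h4 := hcon.trans_le (min_le_right _ _)
  rw [lt_div_iff₀ hQr] at h4
  nlinarith

variable (K) in
theorem uni_B (Λ : Subgroup Ωˣ) (n : ℕ) (ω₀ : ℝ) :
    ∃ C : ℕ, ∀ c₁ : ℝ, 0 < c₁ → ∃ c : ℝ, 0 < c ∧ ∀ L : IntermediateField K Ω,
      (∀ γ : Ωˣ, (∀ m : ℕ, 1 ≤ m → γ ^ m ∉ Λ) → dg L (γ : Ω) ≤ C →
        c₁ ≤ absLogHeight₁ (γ : Ω)) → ∀ Γ : Subgroup (Tor Ω n),
      (∀ x : Tor Ω n, (∀ l, x l ∈ Λ) → x ∈ Γ) → fldO K Γ ≤ L →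
      ∀ V : Set (Tor Ω n), (idl V).IsPrime → Transv K Γ V →
      (∃ (Z : Set (Tor Ω n)) (d' : ℕ) (δ : ℝ), ClosedOver (fldO K Γ) Z ∧ Z ≠ Set.univ ∧
        Equidim Z d' ∧ HasDeg Z d' δ ∧ V ⊆ Z ∧ δ ^ (1 / ((n : ℝ) - d')) ≤ ω₀) →
      ∀ θ : ℝ, idl {x | x ∈ V ∧ ht x ≤ θ} ≤ idl V → c ≤ θ := by
  classical
  obtain ⟨D, hDd⟩ : ∃ D : ℕ, D = ⌊(max 1 ω₀) ^ n⌋₊ := ⟨_, rfl⟩
  have hD1 : 1 ≤ D := by
    rw [hDd, Nat.one_le_floor_iff]
    exact one_le_pow₀ (le_max_left _ _)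
  obtain ⟨ε, Q, C, hε, hQ, hP⟩ := prop_P K Ω ((D + 1) ^ n) 1
  have hQr : (0 : ℝ) < Q := by exact_mod_cast hQ
  have hDr : (0 : ℝ) < D := by exact_mod_cast hD1
  refine ⟨C, fun c₁ hc₁ => ⟨min (ε / D) (c₁ / (Q * D)), lt_min (div_pos hε hDr)
    (div_pos hc₁ (mul_pos hQr hDr)), ?_⟩⟩
  intro L hL Γ hΓ1 hLN V hV htr hex θ hθ
  obtain ⟨Z, d', δ, hZ, hZne, hZd, hZδ, hVZ, hω⟩ := hex
  have hn : d' + 1 ≤ n := dim_lt (fldO K Γ) Z hZ hZne d' hZd
  obtain ⟨G, D', hG0, hGZ, hD'1, hGD', c, hc⟩ := components Z d' hZd (idl_ne_bot _ Z hZ hZne)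
  have hasy := asy (d' + 1) d' 1 D' c le_rfl (by rw [one_mul]; exact hD'1)
    (fun m => Module.finrank Ω (secs Z m)) (fun m hm => by
      rw [one_mul, Nat.add_sub_cancel]
      exact hc m hm) δ hZδ
  have hD'δ : (D' : ℝ) ≤ δ := by
    have h1 := hasy.2
    rw [one_mul] at h1
    exact h1
  have hδ1 : 1 ≤ δ := le_trans (by exact_mod_cast hD'1) hD'δ
  have hexp : (0 : ℝ) < (n : ℝ) - d' := by
    have h1 : ((d' + 1 : ℕ) : ℝ) ≤ n := by exact_mod_cast hn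
    push_cast at h1
    linarith
  have hδω : δ ≤ (max 1 ω₀) ^ n := by
    have h1 : δ = (δ ^ (1 / ((n : ℝ) - d'))) ^ ((n : ℝ) - d') := by
      rw [← Real.rpow_mul (by linarith), one_div_mul_cancel hexp.ne', Real.rpow_one]
    rw [h1]
    calc (δ ^ (1 / ((n : ℝ) - d'))) ^ ((n : ℝ) - d') ≤ (max 1 ω₀) ^ ((n : ℝ) - d') :=
          Real.rpow_le_rpow (Real.rpow_nonneg (by linarith) _) (hω.trans (le_max_right _ _)) hexp.le
      _ ≤ (max 1 ω₀) ^ (n : ℝ) :=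
          Real.rpow_le_rpow_of_exponent_le (le_max_left _ _) (by
            have : (0 : ℝ) ≤ d' := Nat.cast_nonneg d'
            linarith)
      _ = (max 1 ω₀) ^ n := Real.rpow_natCast _ _
  have hD'D : D' ≤ D := by
    rw [hDd]
    exact Nat.le_floor (hD'δ.trans hδω)
  obtain ⟨p, hp0, hpZ, hpD, hpL⟩ := descend (fldO K Γ) Z hZ D' G hG0 hGZ hGD'
  obtain ⟨I, hI, m, g, hcard, hpol, hm, hgc⟩ := pol_of p D (fun l => (hpD l).trans hD'D)
  obtain ⟨X, hX⟩ : ∃ X : Set (Tor Ω n), X = {x | x ∈ V ∧ ht x ≤ θ} := ⟨_, rfl⟩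
  rw [← hX] at hθ
  have hXV : X ⊆ V := by
    rw [hX]
    exact fun x hx => hx.1
  obtain ⟨x₁, hx₁⟩ : X.Nonempty := by
    by_contra hcon
    rw [Set.not_nonempty_iff_eq_empty] at hcon
    apply hV.ne_top
    rw [eq_top_iff]
    refine le_trans ?_ hθ
    intro p _
    unfold idl
    rw [mem_vanishingIdeal_iff]
    rintro _ ⟨x, hx, rfl⟩
    rw [hcon] at hx
    exact absurd hx (Set.notMem_empty x)
  have hxθ : ∀ x ∈ X, ht x ≤ θ := by
    rw [hX]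
    exact fun x hx => hx.2
  have hht0 : ∀ x : Tor Ω n, 0 ≤ ht x := fun x => Finset.sum_nonneg fun l _ => ht_nonneg _
  have hθ0 : 0 ≤ θ := (hht0 x₁).trans (hxθ x₁ hx₁)
  by_contra hcon
  rw [not_le] at hcon
  have h1 : (D : ℝ) * θ ≤ ε := by
    have h2 := hcon.trans_le (min_le_left _ _)
    rw [lt_div_iff₀ hDr] at h2
    linarith
  have hpV : p ∈ idl V := by
    unfold idl at hpZ ⊢
    rw [mem_vanishingIdeal_iff] at hpZ ⊢
    rintro _ ⟨x, hx, rfl⟩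
    exact hpZ _ ⟨x, hVZ hx, rfl⟩
  obtain ⟨e, γ, he0, heQ, heV, heC⟩ := hP L n V X hV hXV hθ I hcard m D hm
    (fun x hx => (mul_le_mul_of_nonneg_left (hxθ x hx) (Nat.cast_nonneg D)).trans h1)
    g 1 le_rfl (fun i => by
      obtain ⟨b, hb⟩ := hgc i
      rw [pow_one, hb]
      exact dg_one_of_mem _ _ (hLN (hpL b))) (by rw [hpol]; exact hp0) (by rw [hpol]; exact hpV)
  rw [pow_one] at heC
  have hsat := not_sat (K := K) Λ Γ hΓ1 V hV htr e he0 γ heV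
  have h2 := hL γ hsat heC
  have h3 : absLogHeight₁ (γ : Ω) ≤ (Q * D : ℝ) * θ := by
    rw [← heV x₁ (hXV hx₁)]
    refine (ht_ch (K := K) e x₁ (Q * D : ℝ) ?_).trans
      (mul_le_mul_of_nonneg_left (hxθ x₁ hx₁) (by positivity))
    intro l
    have h4 := heQ l
    have h5 : ((|e l| : ℤ) : ℝ) ≤ (((Q : ℤ) * (D : ℤ) : ℤ) : ℝ) := by exact_mod_cast h4
    push_cast at h5
    exact h5
  have h4 := hcon.trans_le (min_le_right _ _)
  rw [lt_div_iff₀ (mul_pos hQr hDr)] at h4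
  linarith

end Pool.Agent.H11.TV
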