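import Pool.Agent.H11.BE.All
import Pool.Agent.H11.TV.Uni

/-!
# Points and subvarieties of tori of bounded degree over fields of radicals and roots of unity

Let `b_1, …, b_r ≥ 2` be pairwise coprime squarefree integers, `K` a number field and `Γ_b` the group of all `x ∈ K̄*` with
`x^k ∈ ⟨b_1, …, b_r⟩` for some `k ≥ 1`, a saturated group of rank `r` which contains all roots of unity. A field `K ⊂ L ⊂ K̄` is tame (with
constants `P`, `c`) if every finite subset of `L` lies in an extension of degree at most `P` of some `K(ξ, x_1, …, x_r)`, `ξ^n = 1`,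
`x_i^(m_i) = b_i`, where `n`, `m_1 b_1, …, m_r b_r` are pairwise coprime and `∑_i log [𝓞_{ℚ(x_i)} : ℤ[x_i]] / m_i ≤ c`. Examples:
`K(ξ, x_1, …, x_r)` for all primes `m_1, …, m_r` such that `n`, `m_1 b_1, …, m_r b_r` are pairwise coprime (the small `m_i` may be part
of the extension of degree `≤ P`); the fields generated by the roots of unity of order prime to `b_1` and to all `p ∈ T` and all
compatible `b_1^(1/m)`, `m` composed of primes `p ∈ T`, where `p² ∤ b_1^(p-1) - 1` for `p ∈ T`.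
* For all `E` there is `c > 0`, the same for all number fields `K`, with `h(α) ≥ c` for all tame `L` and all `α ∈ K̄*` outside
  `Γ_b` with `[K : ℚ] [L(α) : L] P ≤ E`.
* For all `N`, `d`, `P` there is `c > 0`, independent of `n`, with `D μ_ess(V) ≥ c` for all groups `Γ` containing
  `⟨b_1, …, b_r⟩^n` and all `Γ`-transverse subvarieties `V` of `𝔾_m^n` on which some nonzero sum of `N` terms `g_j x^(m_j)`
  vanishes, `m_j ≤ D`, `g_j` of degree at most `d` over a tame field.
* For all `n`, `ω₀`, `P` there is `c > 0` with `μ_ess(V) ≥ c` for all groups `Γ` containing `⟨b_1, …, b_r⟩^n` such that `K(Γ)` is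
  tame and all `Γ`-transverse subvarieties `V` of `𝔾_m^n` with `ω_{K(Γ)}(V) ≤ ω₀`.
-/

set_option autoImplicit false
set_option linter.unusedSectionVars false

open MvPolynomial Filter Topology IntermediateField

namespace Pool.Agent.Results.MP_187c26_nt.RadicalBogomolov

/-- The group of points over the algebraic closure of `K` of the torus `𝔾_m^n`. -/
abbrev Torus (K : Type) [Field K] (n : ℕ) : Type := Fin n → (AlgebraicClosure K)ˣ

section Definitions

/-- The index of the order `ℤ[x]` in the ring of integers of `ℚ(x)`. -/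
noncomputable def orderIndex {Ω : Type} [Field Ω] [CharZero Ω] (x : Ω) : ℕ :=
  (Algebra.adjoin ℤ ({x} : Set Ω)).toSubring.toAddSubgroup.relIndex
    (ℚ⟮x⟯.toSubalgebra.toSubring ⊓ (integralClosure ℤ Ω).toSubring).toAddSubgroup

variable {K : Type} [Field K] [NumberField K] {n : ℕ}

/-- The coordinate vector of a point of `𝔾_m^n`. -/
def coords (x : Torus K n) : Fin n → AlgebraicClosure K := fun i => (x i : AlgebraicClosure K)

/-- The canonical height `h_G(x) = ∑ h(x_i)`, with `h` the absolute logarithmic Weil height. -/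
noncomputable def height (x : Torus K n) : ℝ := ∑ i, NumberField.absLogHeight₁ (coords x i)

/-- The ideal of all polynomials over the algebraic closure vanishing on `V`. -/
noncomputable def idealOf (V : Set (Torus K n)) :
    Ideal (MvPolynomial (Fin n) (AlgebraicClosure K)) :=
  vanishingIdeal (AlgebraicClosure K) (coords '' V)

/-- `Z` is a Zariski closed subset of `𝔾_m^n` defined over `L`. -/
def IsClosedOver (L : IntermediateField K (AlgebraicClosure K)) (Z : Set (Torus K n)) : Prop :=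
  ∃ J : Ideal (MvPolynomial (Fin n) L), Z = {x | coords x ∈ zeroLocus (AlgebraicClosure K) J}

/-- Subvarieties: irreducible closed subsets (over the algebraic closure). -/
def IsSubvariety (V : Set (Torus K n)) : Prop := IsClosedOver ⊤ V ∧ (idealOf V).IsPrime

/-- All irreducible components of `Z` have dimension `d`. -/
def IsEquidimensional (Z : Set (Torus K n)) (d : ℕ) : Prop :=
  Z.Nonempty ∧ ∀ P ∈ (idealOf Z).minimalPrimes,
    ringKrullDim (MvPolynomial (Fin n) (AlgebraicClosure K) ⧸ P) = d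

/-- The space of functions on `Z` that are restrictions of polynomials of degree at most `m`
in each variable, that is, of global sections of `O(m,...,m)` on `(ℙ^1)^n`. -/
noncomputable def sections (Z : Set (Torus K n)) (m : ℕ) :
    Submodule (AlgebraicClosure K) (Z → AlgebraicClosure K) :=
  (restrictDegree (Fin n) (AlgebraicClosure K) m).map
    (LinearMap.pi fun z : Z => (aeval (coords (z : Torus K n))).toLinearMap)

/-- `Z`, of pure dimension `d`, has degree `δ` with respect to `O(1,...,1)` on `(ℙ^1)^n`: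
its Hilbert function is asymptotic to `δ m^d / d!`. -/
def HasDegree (Z : Set (Torus K n)) (d : ℕ) (δ : ℝ) : Prop :=
  Tendsto (fun m : ℕ => (d.factorial : ℝ) *
    (Module.finrank (AlgebraicClosure K) (sections Z m) : ℝ) / (m : ℝ) ^ d) atTop (𝓝 δ)

/-- `ω = deg(Z)^(1/(n - dim Z))` for some equidimensional Zariski closed `Z ⊊ 𝔾_m^n` defined over `L` and
containing `V`. The obstruction index `ω_L(V)` is the minimum of these `ω`. -/
def ObstructionValue (L : IntermediateField K (AlgebraicClosure K)) (V : Set (Torus K n))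
    (ω : ℝ) : Prop :=
  ∃ (Z : Set (Torus K n)) (d : ℕ) (δ : ℝ), IsClosedOver L Z ∧ Z ≠ Set.univ ∧
    IsEquidimensional Z d ∧ V ⊆ Z ∧ HasDegree Z d δ ∧ ω = δ ^ (1 / ((n : ℝ) - d))

/-- The points of height at most `θ` are Zariski dense in `V`. The essential minimum `μ_ess(V)` is the
infimum of these `θ`. -/
def EssentialBound (V : Set (Torus K n)) (θ : ℝ) : Prop :=
  idealOf {x | x ∈ V ∧ height x ≤ θ} ≤ idealOf V

/-- The field generated over `K` by the coordinates of the points of `Γ`. -/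
noncomputable def fieldOf (Γ : Subgroup (Torus K n)) : IntermediateField K (AlgebraicClosure K) :=
  IntermediateField.adjoin K {y | ∃ γ ∈ Γ, ∃ i, y = coords γ i}

/-- The saturation of `Γ`. -/
def sat (Γ : Subgroup (Torus K n)) : Set (Torus K n) := {x | ∃ m : ℕ, 1 ≤ m ∧ x ^ m ∈ Γ}

/-- `V` is `Γ`-transverse: no proper `Γ`-torsion subvariety `B γ`, with `B` a connected algebraic
subgroup and `γ` in the saturation of `Γ`, contains `V`. -/
def IsTransverse (Γ : Subgroup (Torus K n)) (V : Set (Torus K n)) : Prop :=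
  ∀ (B : Subgroup (Torus K n)) (γ : Torus K n), IsSubvariety (B : Set (Torus K n)) → γ ∈ sat Γ →
    (fun b => b * γ) '' (B : Set (Torus K n)) ≠ Set.univ →
    ¬ V ⊆ (fun b => b * γ) '' (B : Set (Torus K n))

/-- `y` has degree at most `d` over `L`. -/
def DegreeLE (L : IntermediateField K (AlgebraicClosure K)) (d : ℕ)
    (y : AlgebraicClosure K) : Prop :=
  ∃ P : Polynomial L, P ≠ 0 ∧ P.natDegree ≤ d ∧ Polynomial.aeval y P = 0

/-- Every finite subset of `L` lies in a field `K(ξ, x_1, …, x_r, y)`, `ξ ^ n = 1`, `x_i ^ m_i = b_i`, such that `n`, `m_1 b_1`, …,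
`m_r b_r` are pairwise coprime, the sum over `i` of the logarithm of the index of `ℤ[x_i]` in the ring of integers of `ℚ(x_i)`,
divided by `m_i`, is at most `c`, and `y` has degree at most `P` over `K(ξ, x_1, …, x_r)`. -/
def IsTame {r : ℕ} (b : Fin r → ℕ) (P : ℕ) (c : ℝ)
    (L : IntermediateField K (AlgebraicClosure K)) : Prop :=
  ∀ S : Finset (AlgebraicClosure K), (∀ s ∈ S, s ∈ L) → ∃ (n : ℕ) (m : Fin r → ℕ)
    (ξ : AlgebraicClosure K) (x : Fin r → AlgebraicClosure K) (y : AlgebraicClosure K),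
    1 ≤ n ∧ (∀ i, 1 ≤ m i) ∧ (∀ i, Nat.Coprime n (m i * b i)) ∧
    (∀ i j, i ≠ j → Nat.Coprime (m i * b i) (m j * b j)) ∧ ξ ^ n = 1 ∧
    (∀ i, x i ^ m i = (b i : AlgebraicClosure K)) ∧
    ∑ i, Real.log (orderIndex (x i)) / m i ≤ c ∧
    DegreeLE (IntermediateField.adjoin K ({ξ} ∪ Set.range x)) P y ∧
    ∀ s ∈ S, s ∈ IntermediateField.adjoin K ({ξ} ∪ Set.range x ∪ {y})

/-- `Γ` contains all points whose coordinates lie in the group generated by the `b i`. -/
def ContainsPowers {r : ℕ} (b : Fin r → ℕ) (Γ : Subgroup (Torus K n)) : Prop :=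
  ∀ x : Torus K n, (∀ l, ∃ j : Fin r → ℤ,
    coords x l = ∏ i, (b i : AlgebraicClosure K) ^ j i) → x ∈ Γ

/-- The bound for elements of bounded degree over tame fields; the constant is the same for all number fields `K`. -/
def ElementBound {r : ℕ} (b : Fin r → ℕ) : Prop :=
  ∀ E : ℕ, ∃ c : ℝ, 0 < c ∧ ∀ (K : Type) [Field K] [NumberField K]
    (L : IntermediateField K (AlgebraicClosure K)) (P d : ℕ) (α : (AlgebraicClosure K)ˣ),
    IsTame b P c L → Module.finrank ℚ K * d * P ≤ E → DegreeLE L d (α : AlgebraicClosure K) →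
    (∀ k : ℕ, 1 ≤ k → ∀ j : Fin r → ℤ,
      (α : AlgebraicClosure K) ^ k ≠ ∏ i, (b i : AlgebraicClosure K) ^ j i) →
    c ≤ NumberField.absLogHeight₁ (α : AlgebraicClosure K)

/-- The bound for subvarieties with a sparse equation. -/
def SparseBound {r : ℕ} (b : Fin r → ℕ) (K : Type) [Field K] [NumberField K] : Prop :=
  ∀ N d P : ℕ, ∃ c : ℝ, 0 < c ∧
    ∀ (L : IntermediateField K (AlgebraicClosure K)), IsTame b P c L →
    ∀ (n : ℕ) (Γ : Subgroup (Torus K n)), ContainsPowers b Γ →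
    ∀ V : Set (Torus K n), IsSubvariety V → IsTransverse Γ V →
    ∀ (D : ℕ) (m : Fin N → Fin n → ℕ) (g : Fin N → AlgebraicClosure K),
    (∀ j i, m j i ≤ D) → (∀ j, DegreeLE L d (g j)) →
    (∑ j, C (g j) * ∏ i, X i ^ m j i) ≠ 0 →
    (∑ j, C (g j) * ∏ i, X i ^ m j i) ∈ idealOf V →
    ∀ θ : ℝ, EssentialBound V θ → c ≤ D * θ

/-- The bound for subvarieties of bounded obstruction index. -/
def BogomolovBound {r : ℕ} (b : Fin r → ℕ) (K : Type) [Field K] [NumberField K] : Prop :=
  ∀ (n : ℕ) (ω₀ : ℝ) (P : ℕ), ∃ c : ℝ, 0 < c ∧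
    ∀ Γ : Subgroup (Torus K n), ContainsPowers b Γ → IsTame b P c (fieldOf Γ) →
    ∀ V : Set (Torus K n), IsSubvariety V → V ≠ Set.univ → IsTransverse Γ V →
    (∃ ω : ℝ, ObstructionValue (fieldOf Γ) V ω ∧ ω ≤ ω₀) →
    ∀ θ : ℝ, EssentialBound V θ → c ≤ θ

/-- The index of `ℤ[x]`, `x ^ m = b`, in terms of the primes `p ∣ m` with `p² ∣ b^(p-1) - 1`. -/
def IndexBound (b : ℕ) (K : Type) [Field K] [NumberField K] : Prop :=
  ∀ (m : ℕ) (x : AlgebraicClosure K) (W : Finset ℕ), 1 ≤ m → x ^ m = (b : AlgebraicClosure K) →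
    (∀ p ∈ W, p.Prime ∧ p ∣ m ∧ ¬ p ^ 2 ∣ m) →
    (∀ p : ℕ, p.Prime → p ∣ m → p ∉ W → ¬ p ^ 2 ∣ b ^ (p - 1) - 1) →
    Real.log (orderIndex x) / m ≤ ∑ p ∈ W, Real.log p / p

end Definitions

private lemma tame_iff {K : Type} [Field K] [NumberField K] {r : ℕ} {b : Fin r → ℕ} {P : ℕ}
    {c : ℝ} {L : IntermediateField K (AlgebraicClosure K)} :
    IsTame b P c L ↔ Pool.Agent.H11.BE.InTameY b P c L := Iff.rfl

private lemma tame_mono {K : Type} [Field K] [NumberField K] {r : ℕ} {b : Fin r → ℕ} {P : ℕ}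
    {c c' : ℝ} {L : IntermediateField K (AlgebraicClosure K)} (hcc : c ≤ c')
    (h : IsTame b P c L) : IsTame b P c' L := by
  intro S hS
  obtain ⟨n, m, ξ, x, y, h1, h2, h3, h4, h5, h6, h7, h8, h9⟩ := h S hS
  exact ⟨n, m, ξ, x, y, h1, h2, h3, h4, h5, h6, h7.trans hcc, h8, h9⟩

private lemma natDegree_le {K : Type} [Field K] [NumberField K]
    (L : IntermediateField K (AlgebraicClosure K)) (d : ℕ) (y : AlgebraicClosure K)
    (h : DegreeLE L d y) : (minpoly L y).natDegree ≤ d := by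
  obtain ⟨P, hP0, hPd, hP⟩ := h
  exact (Polynomial.natDegree_le_natDegree (minpoly.degree_le_of_ne_zero L y hP0 hP)).trans hPd

private lemma dg_le {K : Type} [Field K] [NumberField K]
    (L : IntermediateField K (AlgebraicClosure K)) (d : ℕ) (y : AlgebraicClosure K)
    (h : DegreeLE L d y) : Pool.Agent.H72.PB.dg L y ≤ d := by
  obtain ⟨P, hP0, hPd, hP⟩ := h
  refine (Pool.Agent.H72.PB.dg_le_of_poly (P.map (algebraMap _ (AlgebraicClosure K)))
    ?_ ?_ ?_).trans ?_
  · rw [Ne, Polynomial.map_eq_zero]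
    exact hP0
  · intro i
    rw [Polynomial.coeff_map]
    exact (P.coeff i).2
  · rw [Polynomial.eval_map_algebraMap]
    exact hP
  · rw [Polynomial.natDegree_map]
    exact hPd

private theorem element {r : ℕ} (b : Fin r → ℕ) (hb : ∀ i, 2 ≤ b i)
    (hs : ∀ i, Squarefree (b i)) : ElementBound b := by
  intro E
  obtain ⟨c, hc, h⟩ := Pool.Agent.H11.BE.famY b hb hs E (Pool.Agent.H11.BE.all0 r b E)
  refine ⟨c, hc, ?_⟩
  intro K _ _ L P d α hL hE hα hnot
  by_contra hlt
  rw [not_le] at hlt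
  obtain ⟨k, hk, j, hj⟩ := h K (AlgebraicClosure K) P L (tame_iff.1 hL) (α : AlgebraicClosure K)
    α.ne_zero ((Nat.mul_le_mul_right _ (Nat.mul_le_mul_left _ (natDegree_le L d _ hα))).trans hE)
    hlt
  exact hnot k hk j hj

section

variable (K : Type) [Field K] [NumberField K] {r : ℕ}

private lemma b_ne (b : Fin r → ℕ) (hb : ∀ i, 2 ≤ b i) (i : Fin r) :
    (b i : AlgebraicClosure K) ≠ 0 := by
  have := hb i
  exact_mod_cast (by omega : b i ≠ 0)

/-- The group generated by the `b i`. -/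
private noncomputable def grp (b : Fin r → ℕ) (hb : ∀ i, 2 ≤ b i) :
    Subgroup (AlgebraicClosure K)ˣ where
  carrier := {u | ∃ j : Fin r → ℤ, u = ∏ i, (Units.mk0 (b i : AlgebraicClosure K)
    (b_ne K b hb i)) ^ j i}
  one_mem' := ⟨0, by simp⟩
  mul_mem' := by
    rintro _ _ ⟨j, rfl⟩ ⟨k, rfl⟩
    refine ⟨j + k, ?_⟩
    rw [← Finset.prod_mul_distrib]
    exact Finset.prod_congr rfl fun i _ => (zpow_add _ _ _).symm
  inv_mem' := by
    rintro _ ⟨j, rfl⟩
    refine ⟨-j, ?_⟩
    rw [← Finset.prod_inv_distrib]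
    exact Finset.prod_congr rfl fun i _ => (zpow_neg _ _).symm

private lemma mem_grp (b : Fin r → ℕ) (hb : ∀ i, 2 ≤ b i) (u : (AlgebraicClosure K)ˣ) :
    u ∈ grp K b hb ↔ ∃ j : Fin r → ℤ, (u : AlgebraicClosure K) =
      ∏ i, (b i : AlgebraicClosure K) ^ j i := by
  constructor
  · rintro ⟨j, rfl⟩
    refine ⟨j, ?_⟩
    rw [Units.coe_prod]
    refine Finset.prod_congr rfl fun i _ => ?_
    rw [Units.val_zpow_eq_zpow_val, Units.val_mk0]
  · rintro ⟨j, hj⟩
    refine ⟨j, ?_⟩
    apply Units.ext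
    rw [hj, Units.coe_prod]
    refine Finset.prod_congr rfl fun i _ => ?_
    rw [Units.val_zpow_eq_zpow_val, Units.val_mk0]

private theorem input (b : Fin r → ℕ) (hb : ∀ i, 2 ≤ b i) (hs : ∀ i, Squarefree (b i))
    (C P : ℕ) :
    ∃ c : ℝ, 0 < c ∧ ∀ L : IntermediateField K (AlgebraicClosure K), IsTame b P c L →
      ∀ γ : (AlgebraicClosure K)ˣ, (∀ m : ℕ, 1 ≤ m → γ ^ m ∉ grp K b hb) →
      Pool.Agent.H72.PB.dg L (γ : AlgebraicClosure K) ≤ C →
      c ≤ NumberField.absLogHeight₁ (γ : AlgebraicClosure K) := by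
  obtain ⟨c, hc, h⟩ := Pool.Agent.H11.BE.famY b hb hs (Module.finrank ℚ K * C * P)
    (Pool.Agent.H11.BE.all0 r b _)
  refine ⟨c, hc, ?_⟩
  intro L hL γ hγ hdeg
  by_contra hlt
  rw [not_le] at hlt
  obtain ⟨k, hk, j, hj⟩ := h K (AlgebraicClosure K) P L (tame_iff.1 hL) (γ : AlgebraicClosure K)
    γ.ne_zero (Nat.mul_le_mul_right _ (Nat.mul_le_mul_left _
      ((Pool.Agent.H72.PB.natDegree_le_dg L (γ : AlgebraicClosure K)).trans hdeg))) hlt
  refine hγ k hk ?_
  rw [mem_grp]
  refine ⟨j, ?_⟩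
  push_cast
  exact hj

private theorem sparse (b : Fin r → ℕ) (hb : ∀ i, 2 ≤ b i) (hs : ∀ i, Squarefree (b i)) :
    SparseBound b K := by
  classical
  intro N d P
  obtain ⟨C', hC'⟩ := Pool.Agent.H11.TV.uni_sparse K (grp K b hb) N d
  obtain ⟨c₁, hc₁, hinp⟩ := input K b hb hs C' P
  obtain ⟨c, hc, h⟩ := hC' c₁ hc₁
  refine ⟨min c c₁, lt_min hc hc₁, ?_⟩
  intro L hL n Γ hΓ V hV htr D m g hm hg hne hmem θ hθ
  have hterm : ∀ j, Pool.Agent.H11.TH.term (m j) (g j) = C (g j) * ∏ i, X i ^ m j i := by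
    intro j
    unfold Pool.Agent.H11.TH.term
    rw [monomial_eq]
    congr 1
    rw [Finsupp.prod_fintype _ _ (fun i => pow_zero _)]
    rfl
  have h1 : (∑ j, Pool.Agent.H11.TH.term (m j) (g j)) = ∑ j, C (g j) * ∏ i, X i ^ m j i :=
    Finset.sum_congr rfl fun j _ => hterm j
  refine (min_le_left c c₁).trans (h L (hinp L (tame_mono (min_le_right _ _) hL)) n Γ ?_ V hV.2 ?_
    D m g hm (fun j => dg_le L d _ (hg j)) (by rw [h1]; exact hne) (by rw [h1]; exact hmem) θ hθ)
  · intro x hx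
    refine hΓ x fun i => ?_
    exact (mem_grp K b hb (x i)).1 (hx i)
  · intro B γ hB1 hB2 hγ hne' hsub
    exact htr B γ ⟨hB1, hB2⟩ hγ hne' hsub

private theorem bogomolov (b : Fin r → ℕ) (hb : ∀ i, 2 ≤ b i) (hs : ∀ i, Squarefree (b i)) :
    BogomolovBound b K := by
  classical
  intro n ω₀ P
  obtain ⟨C', hC'⟩ := Pool.Agent.H11.TV.uni_B K (grp K b hb) n ω₀
  obtain ⟨c₁, hc₁, hinp⟩ := input K b hb hs C' P
  obtain ⟨c, hc, h⟩ := hC' c₁ hc₁
  refine ⟨min c c₁, lt_min hc hc₁, ?_⟩
  intro Γ hΓ hL V hV _ htr hω θ hθ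
  obtain ⟨_, ⟨Z, d', δ, hZ, hZne, hZd, hVZ, hZδ, rfl⟩, hω₀⟩ := hω
  refine (min_le_left c c₁).trans (h (fieldOf Γ)
    (hinp (fieldOf Γ) (tame_mono (min_le_right _ _) hL)) Γ ?_ le_rfl V hV.2 ?_
    ⟨Z, d', δ, hZ, hZne, hZd, hZδ, hVZ, hω₀⟩ θ hθ)
  · intro x hx
    refine hΓ x fun i => ?_
    exact (mem_grp K b hb (x i)).1 (hx i)
  · intro B γ hB1 hB2 hγ hne hsub
    exact htr B γ ⟨hB1, hB2⟩ hγ hne hsub

end

private theorem index (K : Type) [Field K] [NumberField K] (b : ℕ) (hb : 2 ≤ b)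
    (hs : Squarefree b) : IndexBound b K := by
  intro m x W hm hx hW hgood
  have : Algebra.IsAlgebraic ℚ (AlgebraicClosure K) := Algebra.IsAlgebraic.trans ℚ K _
  exact Pool.Agent.H69.BD.idxZ_bound b m hb hs hm W hW hgood x hx

/-- **Bounded degree over fields of radicals and roots of unity: points and all subvarieties of tori.** Let
`b_1, …, b_r ≥ 2` be pairwise coprime squarefree integers. The height of the numbers outside `Γ_b` of bounded degree over tame
fields is bounded below, uniformly in all number fields `K` of bounded degree; for every number field `K` the essential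
minimum of `Γ`-transverse subvarieties `V` of tori is bounded below if `V` has a sparse equation with coefficients of bounded
degree over a tame field, or if `K(Γ)` is tame and `ω_{K(Γ)}(V)` is bounded; the indices that define tame fields are
bounded by `IndexBound`. -/
theorem result (r : ℕ) (b : Fin r → ℕ) (hb : ∀ i, 2 ≤ b i) (hs : ∀ i, Squarefree (b i)) :
    ElementBound b ∧ ∀ (K : Type) [Field K] [NumberField K],
      SparseBound b K ∧ BogomolovBound b K ∧ ∀ i, IndexBound (b i) K :=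
  ⟨element b hb hs, fun K _ _ => ⟨sparse K b hb hs, bogomolov K b hb hs,
    fun i => index K (b i) (hb i) (hs i)⟩⟩

end Pool.Agent.Results.MP_187c26_nt.RadicalBogomolov
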