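import Pool.Agent.H69.BD.Vfam

/-!
# THEOREM V (MP_187c26_nt): the threshold for the index does not depend on `M`

`H69/BD/Vfam` with the threshold `η` for the index chosen before the bound `M` for the small exponents.
-/

set_option autoImplicit false

open IntermediateField NumberField Polynomial

namespace Pool.Agent.H11.TV

open Pool.Agent.H72.BD Pool.Agent.H69.BD

theorem vtame (b : ℕ) (hb : 2 ≤ b) (hs : Squarefree b) (D : ℕ) : ∃ η : ℝ, 0 < η ∧
    ∀ M : ℕ, ∃ c : ℝ, 0 < c ∧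
    ∀ (K Ω : Type) [Field K] [NumberField K] [Field Ω] [CharZero Ω] [Algebra K Ω]
      [Algebra.IsAlgebraic K Ω] (m : ℕ) (x : Ω), 1 ≤ m →
      x ^ m = (b : Ω) → (m ≤ M ∨ Real.log (idxZ x) / m ≤ η) → ∀ a : Ω, a ≠ 0 →
      Module.finrank ℚ K * (minpoly K⟮x⟯ a).natDegree ≤ D → absLogHeight₁ a < c →
      ∃ k : ℕ, 1 ≤ k ∧ ∃ j : ℤ, a ^ k = (b : Ω) ^ j := by
  obtain ⟨c₁, hc₁, h₁⟩ := vmain b hb hs D
  refine ⟨c₁, hc₁, fun M => ?_⟩
  obtain ⟨c₂, hc₂, h₂⟩ := north (M * D)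
  refine ⟨min c₁ c₂, lt_min hc₁ hc₂, ?_⟩
  intro K Ω _ _ _ _ _ _ m x hm hx hor a ha0 hdeg hh
  rcases hor with hM | hidx
  · have : Algebra.IsAlgebraic ℚ Ω := Algebra.IsAlgebraic.trans ℚ K Ω
    have hai : IsIntegral ℚ a := Algebra.IsIntegral.isIntegral a
    have hxi := integral_rad b m hm x hx
    let σ : Ω →ₐ[ℚ] ℂ := IsAlgClosed.lift
    have h3 : (minpoly ℚ (σ a)).natDegree ≤ M * D := by
      rw [minpoly.algHom_eq σ σ.injective]
      refine (degQ_mul x a hxi hai).trans ?_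
      rw [minpoly_rad b m hb hs hm x hx, natDegree_X_pow_sub_C]
      exact Nat.mul_le_mul hM ((degQ_le K Ω x a hxi hai).trans hdeg)
    have h6 : absLogHeight₁ (σ a) < c₂ := by
      have := height_comp σ.toRingHom a hai
      have h7 : σ.toRingHom a = σ a := rfl
      rw [h7] at this
      rw [this]
      exact hh.trans_le (min_le_right _ _)
    obtain ⟨n, hn, h8⟩ := h₂ (σ a) (hai.map σ) h3 (by rw [Ne, map_eq_zero]; exact ha0) h6
    refine ⟨n, hn, 0, ?_⟩
    rw [zpow_zero]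
    apply σ.injective
    rw [map_pow, map_one]
    exact h8
  · exact h₁ K Ω m x hm hx hidx a ha0 hdeg (hh.trans_le (min_le_left _ _))

/-- The theorem over a family of fields, which contains infinite extensions. -/
theorem vfam (b : ℕ) (hb : 2 ≤ b) (hs : Squarefree b) (D : ℕ) : ∃ η : ℝ, 0 < η ∧
    ∀ M : ℕ, ∃ c : ℝ, 0 < c ∧
    ∀ (K Ω : Type) [Field K] [NumberField K] [Field Ω] [CharZero Ω] [Algebra K Ω]
      [Algebra.IsAlgebraic K Ω] (L : IntermediateField K Ω), InTame b M η L → ∀ a : Ω, a ≠ 0 →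
      Module.finrank ℚ K * (minpoly L a).natDegree ≤ D → absLogHeight₁ a < c →
      ∃ k : ℕ, 1 ≤ k ∧ ∃ j : ℤ, a ^ k = (b : Ω) ^ j := by
  classical
  obtain ⟨η, hη, h'⟩ := vtame b hb hs D
  refine ⟨η, hη, fun M => ?_⟩
  obtain ⟨c, hc, h⟩ := h' M
  refine ⟨c, hc, ?_⟩
  intro K Ω _ _ _ _ _ _ L hL a ha0 hdeg hh
  have haL : IsIntegral L a := (Algebra.IsIntegral.isIntegral (R := K) a).tower_top
  obtain ⟨m, x, hm, hx, hor, hmem⟩ := hL
    ((minpoly L a).coeffs.image fun z : L => (z : Ω)) (by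
      intro s hs
      rw [Finset.mem_image] at hs
      obtain ⟨z, -, rfl⟩ := hs
      exact z.2)
  refine h K Ω m x hm hx hor a ha0 (le_trans (Nat.mul_le_mul_left _ ?_) hdeg) hh
  refine deg_le_of_coeff L K⟮x⟯ a haL fun i => ?_
  by_cases h0 : (minpoly L a).coeff i = 0
  · rw [h0, ZeroMemClass.coe_zero]
    exact zero_mem _
  · exact hmem _ (Finset.mem_image_of_mem _ (coeff_mem_coeffs h0))

end Pool.Agent.H11.TV
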